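import Mathlib

/-!
# All 2 x 2 minors of the higher-order Stirling subset triangles are nonnegative

Put `s = r - 1`.  The entry in row `n` and column `k` is `(n + s k)! / k!` times the coefficient of `x^n` in `psi^k`,
where `psi` is the sum of `x^i / (i + s)!` over `i >= 1`.  The coefficients of `psi`, hence those of its powers, are
log-concave without internal zeros; this gives the 2 x 2 minors of the matrix of coefficients of the powers, and the
factor `(n + s k)!` only helps.
-/

set_option autoImplicit false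

namespace Pool.Agent.Results.MP_b0105e_co.TwoByTwoMinors

open PowerSeries Nat

/-- The `r`-th order Stirling subset numbers. -/
def T (r : ℕ) : ℕ → ℕ → ℕ
  | 0, 0 => 1
  | 0, _ + 1 => 0
  | _ + 1, 0 => 0
  | n + 1, k + 1 => (n + 1 + (r - 1) * (k + 1) - 1).choose (r - 1) * T r n k + (k + 1) * T r n (k + 1)

theorem fact_mul (A i j : ℕ) : (A + i)! * (A + j)! ≤ A ! * (A + i + j)! := by
  induction j with
  | zero => simp [mul_comm]
  | succ j ih =>
    rw [← add_assoc A j 1, ← add_assoc (A + i) j 1, Nat.factorial_succ, Nat.factorial_succ (A + i + j)]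
    calc (A + i)! * ((A + j + 1) * (A + j)!) = (A + j + 1) * ((A + i)! * (A + j)!) := by ring
      _ ≤ (A + i + j + 1) * (A ! * (A + i + j)!) := Nat.mul_le_mul (by omega) ih
      _ = A ! * ((A + i + j + 1) * (A + i + j)!) := by ring

/-- The series `psi`. -/
noncomputable def psi (s : ℕ) : PowerSeries ℚ :=
  PowerSeries.mk fun i => if i = 0 then 0 else 1 / ((i + s)! : ℚ)

/-- The coefficients of the powers of `psi`. -/
noncomputable def m (s k n : ℕ) : ℚ := coeff n (psi s ^ k)

theorem deriv_psi (s : ℕ) :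
    (s : PowerSeries ℚ) * psi s + X * d⁄dX ℚ (psi s) = X * psi s + X * C (1 / (s ! : ℚ)) := by
  ext n
  cases n with
  | zero =>
    simp [psi]
  | succ n =>
    rw [map_add, map_add, coeff_succ_X_mul, coeff_succ_X_mul, coeff_succ_X_mul, coeff_derivative]
    have h1 : coeff (n + 1) ((s : PowerSeries ℚ) * psi s) = s * coeff (n + 1) (psi s) := by
      rw [← map_natCast (C (R := ℚ)) s, coeff_C_mul]
    rw [h1]
    simp only [psi, coeff_mk, coeff_C]
    cases n with
    | zero =>
      simp only [zero_add, one_ne_zero, if_false, if_true]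
      rw [show 1 + s = s + 1 by ring, Nat.factorial_succ]
      have : (s ! : ℚ) ≠ 0 := by positivity
      push_cast
      field_simp
      ring
    | succ n =>
      simp only [Nat.add_eq_zero_iff, one_ne_zero, and_false, if_false]
      rw [show n + 1 + 1 + s = (n + 1 + s) + 1 by ring, Nat.factorial_succ (n + 1 + s)]
      have : ((n + 1 + s)! : ℚ) ≠ 0 := by positivity
      push_cast
      field_simp
      ring

theorem m_rec (s k n : ℕ) :
    ((n : ℚ) + 1 + s * (k + 1)) * m s (k + 1) (n + 1) = (k + 1) * (m s (k + 1) n + m s k n / s !) := by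
  have h := deriv_psi s
  have hd : d⁄dX ℚ (psi s ^ (k + 1)) = ((k + 1 : ℕ) : PowerSeries ℚ) * psi s ^ k * d⁄dX ℚ (psi s) := by
    rw [Derivation.leibniz_pow]
    simp [smul_eq_mul, mul_assoc]
  have h2 : X * d⁄dX ℚ (psi s ^ (k + 1)) + ((k + 1 : ℕ) : PowerSeries ℚ) * (s : PowerSeries ℚ) * psi s ^ (k + 1) =
      ((k + 1 : ℕ) : PowerSeries ℚ) * (X * psi s ^ (k + 1) + X * (C (1 / (s ! : ℚ)) * psi s ^ k)) := by
    rw [hd]
    calc X * (((k + 1 : ℕ) : PowerSeries ℚ) * psi s ^ k * d⁄dX ℚ (psi s)) +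
          ((k + 1 : ℕ) : PowerSeries ℚ) * (s : PowerSeries ℚ) * psi s ^ (k + 1)
        = ((k + 1 : ℕ) : PowerSeries ℚ) * psi s ^ k * ((s : PowerSeries ℚ) * psi s + X * d⁄dX ℚ (psi s)) := by ring
      _ = _ := by rw [h]; ring
  have h3 := congrArg (coeff (n + 1)) h2
  rw [map_add, coeff_succ_X_mul, coeff_derivative] at h3
  have e1 : coeff (n + 1) (((k + 1 : ℕ) : PowerSeries ℚ) * (s : PowerSeries ℚ) * psi s ^ (k + 1)) =
      ((k : ℚ) + 1) * s * coeff (n + 1) (psi s ^ (k + 1)) := by
    rw [← map_natCast (C (R := ℚ)) (k + 1), ← map_natCast (C (R := ℚ)) s, ← map_mul, coeff_C_mul]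
    push_cast; ring
  have e2 : coeff (n + 1) (((k + 1 : ℕ) : PowerSeries ℚ) * (X * psi s ^ (k + 1) + X * (C (1 / (s ! : ℚ)) * psi s ^ k))) =
      ((k : ℚ) + 1) * (coeff n (psi s ^ (k + 1)) + 1 / (s ! : ℚ) * coeff n (psi s ^ k)) := by
    rw [← map_natCast (C (R := ℚ)) (k + 1), coeff_C_mul, map_add, coeff_succ_X_mul, coeff_succ_X_mul, coeff_C_mul]
    push_cast; ring
  rw [e1, e2] at h3
  unfold m
  rw [div_eq_mul_one_div]
  linear_combination h3

theorem m_zero_left (s n : ℕ) : m s 0 n = if n = 0 then 1 else 0 := by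
  unfold m; rw [pow_zero, coeff_one]

theorem m_zero_right (s k : ℕ) : m s (k + 1) 0 = 0 := by
  unfold m
  rw [coeff_zero_eq_constantCoeff_apply, map_pow]
  have : constantCoeff (psi s) = 0 := by
    rw [← coeff_zero_eq_constantCoeff_apply]; simp [psi]
  rw [this, zero_pow (Nat.succ_ne_zero k)]

theorem T_eq (s : ℕ) : ∀ n k : ℕ, (T (s + 1) n k : ℚ) * k ! = (n + s * k)! * m s k n := by
  intro n
  induction n with
  | zero =>
    intro k
    cases k with
    | zero => simp [T, m_zero_left]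
    | succ k => simp [T, m_zero_right]
  | succ n ih =>
    intro k
    cases k with
    | zero => simp [T, m_zero_left]
    | succ k =>
      have h1 := ih k
      have h2 := ih (k + 1)
      have h3 := m_rec s k n
      have hc : (((n + s * (k + 1)).choose s : ℕ) : ℚ) * s ! * (n + s * k)! = (n + s * (k + 1))! := by
        have := Nat.choose_mul_factorial_mul_factorial (n := n + s * (k + 1)) (k := s) (by nlinarith)
        rw [show n + s * (k + 1) - s = n + s * k by rw [Nat.mul_succ]; omega] at this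
        exact_mod_cast this
      have hT : T (s + 1) (n + 1) (k + 1) =
          (n + s * (k + 1)).choose s * T (s + 1) n k + (k + 1) * T (s + 1) n (k + 1) := by
        rw [T]
        simp only [Nat.add_sub_cancel]
        congr 3
        omega
      rw [hT]
      have hf : ((n + 1 + s * (k + 1))! : ℚ) = ((n : ℚ) + 1 + s * (k + 1)) * (n + s * (k + 1))! := by
        rw [show n + 1 + s * (k + 1) = (n + s * (k + 1)) + 1 by ring, Nat.factorial_succ]
        push_cast; ring
      rw [hf]
      have hs : (s ! : ℚ) ≠ 0 := by positivity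
      have h4 : ((n : ℚ) + 1 + s * (k + 1)) * (n + s * (k + 1))! * m s (k + 1) (n + 1) =
          (n + s * (k + 1))! * ((k + 1) * (m s (k + 1) n + m s k n / s !)) := by
        rw [← h3]; ring
      rw [h4]
      push_cast
      have h5 : (((n + s * (k + 1)).choose s : ℕ) : ℚ) * (T (s + 1) n k : ℚ) * (k ! : ℚ) =
          (n + s * (k + 1))! * (m s k n / s !) := by
        rw [mul_assoc, h1, ← hc]
        field_simp
      rw [Nat.factorial_succ] at h2 ⊢
      push_cast at h2 ⊢
      linear_combination ((k : ℚ) + 1) * h5 + ((k : ℚ) + 1) * h2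

/-- The lower triangular Toeplitz matrix of a power series. -/
noncomputable def L (fs : PowerSeries ℚ) (p q : ℕ) : ℚ := coeff p (X ^ q * fs)

theorem L_eq (fs : PowerSeries ℚ) (p q : ℕ) : L fs p q = if q ≤ p then coeff (p - q) fs else 0 := by
  unfold L; rw [coeff_X_pow_mul']

theorem L_mul (fs gs : PowerSeries ℚ) (p q B : ℕ) (hB : p < B) :
    L (fs * gs) p q = ∑ m ∈ Finset.range B, L fs p m * L gs m q := by
  have h1 : L (fs * gs) p q = ∑ m ∈ Finset.range (p + 1), L fs p m * L gs m q := by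
    have : X ^ q * (fs * gs) = (X ^ q * gs) * fs := by ring
    unfold L
    rw [this, coeff_mul, Finset.Nat.sum_antidiagonal_eq_sum_range_succ
      (fun i j => coeff i (X ^ q * gs) * coeff j fs)]
    refine Finset.sum_congr rfl fun i hi => ?_
    rw [coeff_X_pow_mul' fs i p, if_pos (Nat.lt_succ_iff.1 (Finset.mem_range.1 hi)), mul_comm]
  rw [h1]
  apply Finset.sum_subset
  · intro x hx
    rw [Finset.mem_range] at *
    omega
  · intro x _ hx
    rw [Finset.mem_range] at hx
    rw [L_eq fs, if_neg (by omega), zero_mul]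

/-- Nonnegative entries and nonnegative 2 x 2 minors. -/
def TP2 (A : ℕ → ℕ → ℚ) : Prop :=
  (∀ p q, 0 ≤ A p q) ∧ ∀ p1 p2 q1 q2, p1 ≤ p2 → q1 ≤ q2 → A p1 q2 * A p2 q1 ≤ A p1 q1 * A p2 q2

theorem cauchy_binet (S : Finset ℕ) (a b c d : ℕ → ℚ) (hab : ∀ m l, m ≤ l → a l * b m ≤ a m * b l)
    (hcd : ∀ m l, m ≤ l → d m * c l ≤ c m * d l) :
    (∑ m ∈ S, a m * d m) * (∑ l ∈ S, b l * c l) ≤ (∑ m ∈ S, a m * c m) * ∑ l ∈ S, b l * d l := by
  have h1 : (∑ m ∈ S, a m * c m) * (∑ l ∈ S, b l * d l) - (∑ m ∈ S, a m * d m) * (∑ l ∈ S, b l * c l) =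
      ∑ m ∈ S, ∑ l ∈ S, a m * b l * (c m * d l - d m * c l) := by
    rw [Finset.sum_mul_sum, Finset.sum_mul_sum, ← Finset.sum_sub_distrib]
    refine Finset.sum_congr rfl fun m _ => ?_
    rw [← Finset.sum_sub_distrib]
    refine Finset.sum_congr rfl fun l _ => ?_
    ring
  have h2 : ∑ m ∈ S, ∑ l ∈ S, a m * b l * (c m * d l - d m * c l) =
      ∑ m ∈ S, ∑ l ∈ S, a l * b m * (c l * d m - d l * c m) := Finset.sum_comm
  have h3 : 0 ≤ ∑ m ∈ S, ∑ l ∈ S, (a m * b l - a l * b m) * (c m * d l - d m * c l) := by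
    refine Finset.sum_nonneg fun m _ => Finset.sum_nonneg fun l _ => ?_
    rcases le_total m l with h | h
    · exact mul_nonneg (sub_nonneg.2 (hab m l h)) (sub_nonneg.2 (hcd m l h))
    · have e1 := hab l m h
      have e2 := hcd l m h
      have f1 : a m * b l - a l * b m ≤ 0 := by linarith
      have f2 : c m * d l - d m * c l ≤ 0 := by linarith
      exact mul_nonneg_of_nonpos_of_nonpos f1 f2
  have h4 : ∑ m ∈ S, ∑ l ∈ S, (a m * b l - a l * b m) * (c m * d l - d m * c l) =
      (∑ m ∈ S, ∑ l ∈ S, a m * b l * (c m * d l - d m * c l)) +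
      ∑ m ∈ S, ∑ l ∈ S, a l * b m * (c l * d m - d l * c m) := by
    rw [← Finset.sum_add_distrib]
    refine Finset.sum_congr rfl fun m _ => ?_
    rw [← Finset.sum_add_distrib]
    refine Finset.sum_congr rfl fun l _ => ?_
    ring
  rw [← h2] at h4
  linarith

theorem L_psi (s : ℕ) : TP2 (L (psi s)) := by
  have hnn : ∀ p q, 0 ≤ L (psi s) p q := by
    intro p q
    rw [L_eq]
    split_ifs
    · simp only [psi, coeff_mk]
      split_ifs
      · exact le_rfl
      · positivity
    · exact le_rfl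
  refine ⟨hnn, ?_⟩
  intro p1 p2 q1 q2 hp hq
  by_cases h : p1 ≤ q2
  · have : L (psi s) p1 q2 = 0 := by
      rw [L_eq]
      split_ifs with h2
      · have : p1 - q2 = 0 := by omega
        rw [this]; simp [psi]
      · rfl
    rw [this, zero_mul]
    exact mul_nonneg (hnn _ _) (hnn _ _)
  · have key : ∀ p q, q < p → L (psi s) p q = 1 / ((p - q + s)! : ℚ) := by
      intro p q hpq
      rw [L_eq, if_pos hpq.le]
      simp only [psi, coeff_mk]
      rw [if_neg (by omega)]
    rw [key _ _ (by omega), key _ _ (by omega), key _ _ (by omega), key _ _ (by omega),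
      one_div_mul_one_div, one_div_mul_one_div]
    apply one_div_le_one_div_of_le (by positivity)
    have h1 := fact_mul (p1 - q2 + s) (q2 - q1) (p2 - p1)
    rw [show p1 - q2 + s + (q2 - q1) = p1 - q1 + s by omega,
      show p1 - q2 + s + (p2 - p1) = p2 - q2 + s by omega,
      show p1 - q1 + s + (p2 - p1) = p2 - q1 + s by omega] at h1
    exact_mod_cast h1

theorem L_pow (s k : ℕ) : TP2 (L (psi s ^ k)) := by
  induction k with
  | zero =>
    have e : ∀ p q, L (psi s ^ 0) p q = if p = q then 1 else 0 := by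
      intro p q; unfold L; rw [pow_zero, mul_one, coeff_X_pow]
    refine ⟨fun p q => by rw [e]; split_ifs <;> norm_num, ?_⟩
    intro p1 p2 q1 q2 hp hq
    rw [e, e, e, e]
    split_ifs <;> first | (exfalso; omega) | norm_num
  | succ k ih =>
    have hB : ∀ p q B, p < B → L (psi s ^ (k + 1)) p q =
        ∑ m ∈ Finset.range B, L (psi s ^ k) p m * L (psi s) m q := by
      intro p q B h
      rw [pow_succ]; exact L_mul _ _ p q B h
    have hp := L_psi s
    refine ⟨?_, ?_⟩
    · intro p q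
      rw [hB p q (p + 1) (Nat.lt_succ_self _)]
      exact Finset.sum_nonneg fun m _ => mul_nonneg (ih.1 _ _) (hp.1 _ _)
    · intro p1 p2 q1 q2 h1 h2
      have b1 : p1 < p2 + 1 := by omega
      have b2 : p2 < p2 + 1 := by omega
      rw [hB p1 q2 _ b1, hB p2 q1 _ b2, hB p1 q1 _ b1, hB p2 q2 _ b2]
      exact cauchy_binet _ (fun m => L (psi s ^ k) p1 m) (fun m => L (psi s ^ k) p2 m)
        (fun m => L (psi s) m q1) (fun m => L (psi s) m q2)
        (fun m l h => ih.2 p1 p2 m l h1 h) (fun m l h => hp.2 m l q1 q2 h h2)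

theorem m_lr (s k t a b : ℕ) (hab : a ≤ b) :
    m s (k + t) a * m s k b ≤ m s k a * m s (k + t) b := by
  have e : ∀ n k, m s k n = L (psi s ^ k) n 0 := by
    intro n k; unfold m L; rw [pow_zero, one_mul]
  rw [e, e, e, e, pow_add, L_mul _ _ a 0 (b + 1) (by omega), L_mul _ _ b 0 (b + 1) (by omega),
    Finset.sum_mul, Finset.mul_sum]
  refine Finset.sum_le_sum fun j _ => ?_
  have h1 := (L_pow s k).2 a b 0 j hab (Nat.zero_le _)
  have h2 := mul_le_mul_of_nonneg_right h1 ((L_pow s t).1 j 0)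
  linarith

/-- For all `r >= 1`, every 2 x 2 minor of the triangle of `r`-th order Stirling subset numbers is nonnegative. -/
theorem result (r : ℕ) (hr : 1 ≤ r) (n n' k k' : ℕ) (hn : n < n') (hk : k < k') :
    T r n k' * T r n' k ≤ T r n k * T r n' k' := by
  obtain ⟨s, rfl⟩ : ∃ s, r = s + 1 := ⟨r - 1, by omega⟩
  obtain ⟨t, rfl⟩ : ∃ t, k' = k + t := ⟨k' - k, by omega⟩
  have h := m_lr s k t n n' hn.le
  have hf := fact_mul (n + s * k) (n' - n) (s * t)
  rw [show n + s * k + (n' - n) = n' + s * k by omega, show n + s * k + s * t = n + s * (k + t) by ring,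
    show n' + s * k + s * t = n' + s * (k + t) by ring] at hf
  have e1 := T_eq s n (k + t)
  have e2 := T_eq s n' k
  have e3 := T_eq s n k
  have e4 := T_eq s n' (k + t)
  have hnn : ∀ k n, 0 ≤ m s k n := by
    intro k n
    have := (L_pow s k).1 n 0
    unfold L at this
    rwa [pow_zero, one_mul] at this
  have hf' : (((n' + s * k)! : ℕ) : ℚ) * ((n + s * (k + t))! : ℕ) ≤
      ((n + s * k)! : ℕ) * ((n' + s * (k + t))! : ℕ) := by exact_mod_cast hf
  have key : ((T (s + 1) n (k + t) : ℚ) * (k + t)!) * ((T (s + 1) n' k : ℚ) * k !) ≤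
      ((T (s + 1) n k : ℚ) * k !) * ((T (s + 1) n' (k + t) : ℚ) * (k + t)!) := by
    rw [e1, e2, e3, e4]
    calc ((n + s * (k + t))! : ℚ) * m s (k + t) n * (((n' + s * k)! : ℚ) * m s k n')
        = (((n' + s * k)! : ℚ) * ((n + s * (k + t))! : ℚ)) * (m s (k + t) n * m s k n') := by ring
      _ ≤ (((n + s * k)! : ℚ) * ((n' + s * (k + t))! : ℚ)) * (m s k n * m s (k + t) n') :=
        mul_le_mul hf' h (mul_nonneg (hnn _ _) (hnn _ _)) (by positivity)
      _ = _ := by ring
  have hpos : (0 : ℚ) < ((k + t)! : ℚ) * (k ! : ℚ) := by positivity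
  have key2 : ((T (s + 1) n (k + t) : ℚ) * (T (s + 1) n' k : ℚ)) * (((k + t)! : ℚ) * (k ! : ℚ)) ≤
      ((T (s + 1) n k : ℚ) * (T (s + 1) n' (k + t) : ℚ)) * (((k + t)! : ℚ) * (k ! : ℚ)) := by
    linarith [key]
  have key3 := le_of_mul_le_mul_right key2 hpos
  exact_mod_cast key3

end Pool.Agent.Results.MP_b0105e_co.TwoByTwoMinors
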